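import Pool.Agent.H84.ND.Targets2
import Pool.Agent.H21.SM.FOX
import Pool.Agent.H13.SM.FOC

/-!
# Row FOG of the board `ndc_modules`: first order equations, every form `G`
-/

set_option autoImplicit false

namespace Pool.Agent.H47.ND

open MvPolynomial SC Pool.Agent.H27.LV Pool.Agent.H84.SM Pool.Agent.H84.ND
open Pool.Agent.H21.SM (fox_po2 fox_cases fox_po fox_ev)
open Pool.Agent.H13.SM (Qj Qj_eval Qj_ne scl fin3')

/-- the first order equations in one chart -/
theorem fog_chart (h : Pool.Agent.H3.OD.T_FO) (k : Type) [Field k] [IsAlgClosed k] [CharZero k]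
    (G : MvPolynomial (Fin 3) k) (d : ℕ) (j : Fin 3) (hd : 1 ≤ d)
    (Q : MvPolynomial (Fin 3) k) (hQ : Q ≠ 0) : ∃ C : ℕ,
    ∀ (K : Type) [Field K] [Algebra k K] [Algebra.EssFiniteType k K], Algebra.trdeg k K = 1 →
    ∀ (D : Derivation k K K), D ≠ 0 → ∀ (x : Fin 3 → K) (S : Finset (DV k K)), Prim k x →
    x j = 1 → Crv G d x S → D (x (j + 1)) ≠ 0 →
    aeval ![x (j + 1), x (j + 2), D (x (j + 2)) / D (x (j + 1))] Q = 0 →
    deg k x ≤ C * S.card := by
  obtain ⟨C, hC⟩ := h k d (rename (fun i => i - j) G) Q hQ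
  refine ⟨C, ?_⟩
  intro K _ _ _ htr D hD x S hx hj hS hDx hQx
  have hadj : IntermediateField.adjoin k {x (j + 1), x (j + 2)} = ⊤ := by
    rw [eq_top_iff, ← hx, IntermediateField.adjoin_le_iff]
    rintro _ ⟨i, rfl⟩
    obtain rfl | rfl | rfl := fox_cases i j
    · show x i ∈ _
      rw [hj]
      exact one_mem _
    · exact IntermediateField.subset_adjoin _ _ (by simp)
    · exact IntermediateField.subset_adjoin _ _ (by simp)
  have h1 := hC K htr (x (j + 1)) (x (j + 2)) D hadj hD (fun _ => hQx)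
    (by rw [fox_ev x j hj]; exact hS.ne) S (fun v hv => by
      rw [fox_ev x j hj, hS.off v hv, fox_po v x j hj, fox_po2]
      ring)
  have h2 : deg k x = deg k ![x (j + 1), x (j + 2)] := by
    unfold deg
    exact finsum_congr fun v => fox_po v x j hj
  rw [h2]
  exact (Nat.le_mul_of_pos_left _ (by omega)).trans h1

theorem pf_FOG (hSCL : Pool.Agent.H84.SM.T_SCL) : T_FOG := by
  intro hFO k _ _ _ G d hd hG c hc hdv hBHx
  obtain ⟨e, i, hBH⟩ := hBHx
  choose C hC using fun j : Fin 3 => fog_chart hFO k G d j hd (Qj j c) (Qj_ne hSCL hdv hBH hc j)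
  have hCle : ∀ j, C j ≤ ∑ j, C j + 1 := fun j =>
    (Finset.single_le_sum (f := C) (fun _ _ => Nat.zero_le _) (Finset.mem_univ j)).trans
      (Nat.le_succ _)
  refine ⟨∑ j, C j + 1, ?_⟩
  intro K _ _ _ htr D hD x S hPr hCrv hc0
  obtain ⟨j, hj⟩ := hCrv.one
  have hDj : D (x j) = 0 := by rw [hj, D.map_one_eq_zero]
  obtain ⟨f1, f2, f3⟩ := fin3' j
  by_cases h1 : D (x (j + 1)) = 0
  · left
    obtain ⟨lam, hlam⟩ := Pool.Agent.H27.LV.ker k K htr D hD _ h1
    refine ⟨1, X (j + 1) - MvPolynomial.C lam * X j, by omega, ?_, ?_, ?_⟩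
    · intro h
      have h2 := congrArg (aeval (fun s : Fin 3 => if s = j + 1 then (1 : k) else 0)) h
      rw [map_sub, map_mul, aeval_X, aeval_X, map_zero, if_pos rfl, if_neg (Ne.symm f1),
        mul_zero, sub_zero] at h2
      exact one_ne_zero h2
    · refine IsHomogeneous.sub (isHomogeneous_X _ _) ?_
      have := (isHomogeneous_C (Fin 3) lam).mul (isHomogeneous_X k j)
      rwa [zero_add] at this
    · rw [map_sub, map_mul, aeval_X, aeval_X, aeval_C, hlam, hj, mul_one, sub_self]
  · let v : Fin 3 → K := fun a => D (x a) / D (x (j + 1))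
    have h2 : aeval (Sum.elim x v) c = 0 := by
      have h3 := scl hSCL hdv hBH x v 1 (D (x (j + 1))) 0
      have e1 : (fun a => 1 * x a) = x := by funext a; rw [one_mul]
      have e2 : (fun a => 1 * D (x (j + 1)) * v a + 0 * x a) = fun a => D (x a) := by
        funext a
        change 1 * D (x (j + 1)) * (D (x a) / D (x (j + 1))) + 0 * x a = _
        rw [one_mul, zero_mul, add_zero, mul_div_cancel₀ _ h1]
      rw [e1, e2, hc0, one_pow, one_mul] at h3
      rcases mul_eq_zero.1 h3.symm with h | h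
      · exact absurd h (pow_ne_zero _ h1)
      · exact h
    have hvj : v j = 0 := by
      change D (x j) / D (x (j + 1)) = 0
      rw [hDj, zero_div]
    have hv1 : v (j + 1) = 1 := div_self h1
    rw [Qj_eval j c x v hj hvj hv1] at h2
    exact Or.inr ((hC j K htr D hD x S hPr hj hCrv h1 h2).trans
      (Nat.mul_le_mul_right _ (hCle j)))

end Pool.Agent.H47.ND
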